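import Pool.Agent.Run7.h477.RK.Iface

/-!
# MP_5f0000_al, piece GST: two line stabilisers generate
-/

set_option autoImplicit false

namespace Run7.h136.RK

open Matrix Run7.h477.RK

section
variable {K : Type} [Field K] {e : ℕ}

/-- conjugation of a plane rotation by a swap -/
theorem swap_conj (i j k : Fin 3) (hij : i ≠ j) (hik : i ≠ k) (hjk : j ≠ k) (a b : K) :
    pl e j k (0 : K) 1 * pl e i k a b * pl e j k 0 1 = pl e i j a b := by
  have hb0 : bar e (0 : K) = 0 := bar_zero e
  have hb1 : bar e (1 : K) = 1 := bar_one e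
  fin_cases i <;> fin_cases j <;> fin_cases k <;>
    first
    | exact absurd rfl hij
    | exact absurd rfl hik
    | exact absurd rfl hjk
    | (ext l m
       fin_cases l <;> fin_cases m <;>
         simp [pl, Matrix.mul_apply, Fin.sum_univ_three, hb0, hb1])

/-- conjugation of a plane rotation by a swap -/
theorem swap_conj' (i j k : Fin 3) (hij : i ≠ j) (hik : i ≠ k) (hjk : j ≠ k) (a b : K) :
    pl e j k (0 : K) 1 * pl e k i a b * pl e j k 0 1 = pl e j i a b := by
  have hb0 : bar e (0 : K) = 0 := bar_zero e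
  have hb1 : bar e (1 : K) = 1 := bar_one e
  fin_cases i <;> fin_cases j <;> fin_cases k <;>
    first
    | exact absurd rfl hij
    | exact absurd rfl hik
    | exact absurd rfl hjk
    | (ext l m
       fin_cases l <;> fin_cases m <;>
         simp [pl, Matrix.mul_apply, Fin.sum_univ_three, hb0, hb1])

/-- rotations of the plane `p, q` preserve the line of the third vector -/
theorem blk_pl (i p q : Fin 3) (hip : i ≠ p) (hiq : i ≠ q) (a b : K) : Blk i (pl e p q a b) := by
  intro k hk
  constructor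
  · unfold pl
    rw [if_neg hip, if_neg hiq, if_neg hk]
  · unfold pl
    by_cases h1 : k = p
    · rw [if_pos h1, if_neg hip, if_neg hiq]
    · rw [if_neg h1]
      by_cases h2 : k = q
      · rw [if_pos h2, if_neg hip, if_neg hiq]
      · rw [if_neg h2, if_neg (Ne.symm hk)]

/-- transvections of vectors with `x_i = 0` preserve the line of `e_i` -/
theorem blk_tr (i : Fin 3) (x : Fin 3 → K) (hx : x i = 0) (c : K) : Blk i (tr e x c) := by
  intro k hk
  have hb0 : bar e (0 : K) = 0 := bar_zero e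
  constructor
  · simp [tr, Matrix.vecMulVec_apply, Matrix.one_apply, hk, hx, hb0]
  · simp [tr, Matrix.vecMulVec_apply, Matrix.one_apply, Ne.symm hk, hx]

end

theorem t_GST : S_PL → S_TRA → S_GST := by
  intro hPL hTRA K _ _ _ e hK i j hij
  obtain ⟨k, hki, hkj⟩ : ∃ k : Fin 3, k ≠ i ∧ k ≠ j := by
    revert i j; decide
  set S : Subgroup (T K e) := St K e i ⊔ St K e j with hS
  set D : Subgroup (Matrix (Fin 3) (Fin 3) K)ˣ := S.map (T K e).subtype with hD
  have memD : ∀ (u : (Matrix (Fin 3) (Fin 3) K)ˣ), u ∈ T K e →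
      (Blk i (u : Matrix (Fin 3) (Fin 3) K) ∨ Blk j (u : Matrix (Fin 3) (Fin 3) K)) → u ∈ D := by
    intro u hu hb
    refine ⟨⟨u, hu⟩, ?_, rfl⟩
    rcases hb with hb | hb
    · have h1 : (⟨u, hu⟩ : T K e) ∈ St K e i := Subgroup.subset_closure hb
      exact (le_sup_left : St K e i ≤ S) h1
    · have h1 : (⟨u, hu⟩ : T K e) ∈ St K e j := Subgroup.subset_closure hb
      exact (le_sup_right : St K e j ≤ S) h1
  -- the plane rotations
  have rot1 : ∀ p q : Fin 3, p ≠ q → (i ≠ p ∧ i ≠ q ∨ j ≠ p ∧ j ≠ q) → ∀ a b : K,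
      a * bar e a + b * bar e b = 1 → ∃ g ∈ D, (g : Matrix (Fin 3) (Fin 3) K) = pl e p q a b := by
    intro p q hpq h a b hab
    obtain ⟨g, hg, hgm⟩ := hPL K e hK p q hpq a b hab
    refine ⟨g, memD g hg ?_, hgm⟩
    rw [hgm]
    rcases h with ⟨h1, h2⟩ | ⟨h1, h2⟩
    · exact Or.inl (blk_pl i p q h1 h2 a b)
    · exact Or.inr (blk_pl j p q h1 h2 a b)
  have hone : (0 : K) * bar e 0 + 1 * bar e 1 = 1 := by
    rw [bar_one]; ring
  have rot : ∀ p q : Fin 3, p ≠ q → ∀ a b : K, a * bar e a + b * bar e b = 1 →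
      ∃ g ∈ D, (g : Matrix (Fin 3) (Fin 3) K) = pl e p q a b := by
    intro p q hpq a b hab
    by_cases h : (i ≠ p ∧ i ≠ q ∨ j ≠ p ∧ j ≠ q)
    · exact rot1 p q hpq h a b hab
    · -- `{p, q} = {i, j}`
      have hcases : (p = i ∧ q = j) ∨ (p = j ∧ q = i) := by
        clear_value S D
        revert h hij hki hkj hpq
        clear * -
        revert i j k p q
        decide
      obtain ⟨s, hs, hsm⟩ := rot1 j k (Ne.symm hkj) (Or.inl ⟨hij, Ne.symm hki⟩) 0 1 hone
      rcases hcases with ⟨rfl, rfl⟩ | ⟨rfl, rfl⟩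
      · obtain ⟨g, hg, hgm⟩ := rot1 p k (Ne.symm hki) (Or.inr ⟨Ne.symm hij, Ne.symm hkj⟩) a b hab
        refine ⟨s * g * s, D.mul_mem (D.mul_mem hs hg) hs, ?_⟩
        rw [Units.val_mul, Units.val_mul, hsm, hgm]
        exact swap_conj p q k hij (Ne.symm hki) (Ne.symm hkj) a b
      · obtain ⟨g, hg, hgm⟩ := rot1 k q hki (Or.inr ⟨Ne.symm hkj, Ne.symm hij⟩) a b hab
        refine ⟨s * g * s, D.mul_mem (D.mul_mem hs hg) hs, ?_⟩
        rw [Units.val_mul, Units.val_mul, hsm, hgm]
        exact swap_conj' q p k hij (Ne.symm hki) (Ne.symm hkj) a b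
  -- all transvections
  have hle : T K e ≤ D := by
    rw [T_eq, Subgroup.closure_le]
    rintro u ⟨x, hx, c, hc, rfl⟩
    by_cases hx0 : x = 0
    · subst hx0
      have h1 : trU hx c = 1 := by
        apply Units.ext
        rw [trU_val, Units.val_one]
        unfold tr
        have : Matrix.vecMulVec (0 : Fin 3 → K) (fun i => bar e ((0 : Fin 3 → K) i)) = 0 := by
          ext a b; simp [Matrix.vecMulVec_apply]
        rw [this, smul_zero, add_zero]
      rw [h1]
      exact D.one_mem
    · -- the vector `e_j + e_k`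
      set y : Fin 3 → K := Pi.single j 1 + Pi.single k 1 with hy
      have hyi : y i = 0 := by
        rw [hy, Pi.add_apply, Pi.single_eq_of_ne hij, Pi.single_eq_of_ne (Ne.symm hki), add_zero]
      have hyj : y j = 1 := by
        rw [hy, Pi.add_apply, Pi.single_eq_same, Pi.single_eq_of_ne (Ne.symm hkj), add_zero]
      have hy0 : y ≠ 0 := by
        intro h
        rw [h] at hyj
        exact zero_ne_one hyj
      have hyk : y k = 1 := by
        rw [hy, Pi.add_apply, Pi.single_eq_same, Pi.single_eq_of_ne hkj, zero_add]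
      have hyy : hf e y y = 0 := by
        have h1 : hf e y y = hf e (Pi.single j 1) y + hf e (Pi.single k 1) y := by
          conv_lhs => rw [show hf e y y = hf e (Pi.single j 1 + Pi.single k 1) y from rfl]
          exact hf_add_left e _ _ _
        rw [h1, hf_single_left, hf_single_left, hyj, hyk, add_self0]
      obtain ⟨g, hg, μ, hμ, hgy⟩ := hTRA K e hK D rot y x hy0 hx0 hyy hx
      have hgT : g ∈ T K e := by
        obtain ⟨s, _, rfl⟩ := hg
        exact s.2
      have hun : ∀ v w, hf e ((g : Matrix (Fin 3) (Fin 3) K).mulVec v)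
          ((g : Matrix (Fin 3) (Fin 3) K).mulVec w) = hf e v w := fun v w => hf_T hK hgT v w
      set c' : K := c * (μ⁻¹ * bar e μ⁻¹) with hc'
      have hc'F : bar e c' = c' := by
        rw [hc', bar_mul, hc, bar_norm hK]
      have h1 : trU hx c = g * trU hyy c' * g⁻¹ := by
        apply Units.ext
        rw [Units.val_mul, Units.val_mul, trU_val, trU_val, conj_tr g hun y c', hgy, tr_smul, hc',
          bar_inv]
        congr 1
        have hbμ : bar e μ ≠ 0 := bar_ne_zero hμ
        field_simp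
      rw [h1]
      refine D.mul_mem (D.mul_mem hg (memD _ (trU_mem hyy hc'F) (Or.inl ?_))) (D.inv_mem hg)
      rw [trU_val]
      exact blk_tr i y hyi c'
  rw [eq_top_iff]
  rintro ⟨u, hu⟩ _
  obtain ⟨s, hs, hsu⟩ := hle hu
  have : s = ⟨u, hu⟩ := Subtype.ext hsu
  rw [← this]
  exact hs

end Run7.h136.RK
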