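import Pool.Agent.Run7.h477.RK.Iface

/-!
# MP_5f0000_al, piece TRA: transitivity on isotropic points
-/

set_option autoImplicit false

namespace Run7.h136.RK

open Matrix Run7.h477.RK

/-- the vector `e_0 + e_1` -/
def e01 (K : Type) [Field K] : Fin 3 → K := ![1, 1, 0]

section
variable {K : Type} [Field K] [CharP K 2] [Finite K] {e : ℕ}

/-- `e_0 + e_1` is moved to (a multiple of) any isotropic vector by a group containing the plane
rotations -/
theorem exists_of_e01 (D : Subgroup (Matrix (Fin 3) (Fin 3) K)ˣ)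
    (hD : ∀ i j : Fin 3, i ≠ j → ∀ a b : K, a * bar e a + b * bar e b = 1 →
      ∃ g ∈ D, (g : Matrix (Fin 3) (Fin 3) K) = pl e i j a b)
    (x : Fin 3 → K) (hx : x ≠ 0) (hxx : hf e x x = 0) :
    ∃ g ∈ D, ∃ μ : K, μ ≠ 0 ∧ (g : Matrix (Fin 3) (Fin 3) K).mulVec (e01 K) = μ • x := by
  have h2 : ∀ y : K, y + y = 0 := add_self0
  have hiso : x 0 * bar e (x 0) + x 1 * bar e (x 1) + x 2 * bar e (x 2) = 0 := by
    simpa [hf, Fin.sum_univ_three] using hxx
  have key : ∀ p q r : K, r ≠ 0 → p * bar e p + q * bar e q + r * bar e r = 0 →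
      (p / r) * bar e (p / r) + (q / r) * bar e (q / r) = 1 := by
    intro p q r hr h
    have hbr : bar e r ≠ 0 := bar_ne_zero hr
    rw [bar_div, bar_div]
    have h1 : p * bar e p + q * bar e q = r * bar e r := by
      have := h2 (r * bar e r)
      linear_combination h - this
    field_simp
    linear_combination h1
  by_cases h0 : x 0 = 0
  · by_cases h1 : x 1 = 0
    · exfalso
      apply hx
      have h3 : x 2 * bar e (x 2) = 0 := by
        simpa [h0, h1] using hiso
      have h4 : x 2 = 0 := by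
        rcases mul_eq_zero.mp h3 with h | h
        · exact h
        · exact bar_eq_zero.mp h
      funext i
      fin_cases i
      · exact h0
      · exact h1
      · exact h4
    · obtain ⟨g, hg, hgm⟩ := hD 0 2 (by decide) (x 0 / x 1) (x 2 / x 1)
        (key _ _ _ h1 (by linear_combination hiso))
      refine ⟨g, hg, (x 1)⁻¹, inv_ne_zero h1, ?_⟩
      rw [hgm]
      funext i
      fin_cases i <;>
        simp [pl, e01, Matrix.mulVec, dotProduct, Fin.sum_univ_three] <;> field_simp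
  · obtain ⟨g, hg, hgm⟩ := hD 1 2 (by decide) (x 1 / x 0) (x 2 / x 0)
      (key _ _ _ h0 (by linear_combination hiso))
    refine ⟨g, hg, (x 0)⁻¹, inv_ne_zero h0, ?_⟩
    rw [hgm]
    funext i
    fin_cases i <;>
      simp [pl, e01, Matrix.mulVec, dotProduct, Fin.sum_univ_three] <;> field_simp

end

theorem t_TRA : S_TRA := by
  intro K _ _ _ e hK D hD x y hx hy hxx hyy
  obtain ⟨g, hg, μ, hμ, hgx⟩ := exists_of_e01 D hD x hx hxx
  obtain ⟨k, hk, ν, hν, hky⟩ := exists_of_e01 D hD y hy hyy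
  refine ⟨k * g⁻¹, D.mul_mem hk (D.inv_mem hg), μ⁻¹ * ν, mul_ne_zero (inv_ne_zero hμ) hν, ?_⟩
  have h1 : ((g⁻¹ : (Matrix (Fin 3) (Fin 3) K)ˣ) : Matrix (Fin 3) (Fin 3) K).mulVec x =
      μ⁻¹ • e01 K := by
    have h2 : x = μ⁻¹ • (g : Matrix (Fin 3) (Fin 3) K).mulVec (e01 K) := by
      rw [hgx, smul_smul, inv_mul_cancel₀ hμ, one_smul]
    rw [h2, Matrix.mulVec_smul, Matrix.mulVec_mulVec, Units.inv_mul, Matrix.one_mulVec]
  rw [Units.val_mul, ← Matrix.mulVec_mulVec, h1, Matrix.mulVec_smul, hky, smul_smul]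

end Run7.h136.RK
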